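import Mathlib

/-!
# Turan's theorem for ordered pairs
-/

set_option autoImplicit false

namespace Pool.Agent.U659.BL

open Finset

/-- If no more than `K` elements are pairwise in the relation `bad`, then at least a proportion
`1 / K` of the ordered pairs is not in this relation. -/
theorem turan_pairs {J : Type} [Fintype J] (bad : J → J → Prop) (hsym : ∀ i j, bad i j → bad j i)
    (K : ℕ) (hK0 : 0 < K)
    (hK : ∀ S : Finset J, (∀ i ∈ S, ∀ j ∈ S, i ≠ j → bad i j) → S.card ≤ K)
    (hdiag : ∀ i, ¬ bad i i) :
    Fintype.card J ^ 2 ≤ K * Nat.card {z : J × J // ¬ bad z.1 z.2} := by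
  classical
  let Γ : SimpleGraph J :=
    { Adj := fun i j => i ≠ j ∧ bad i j
      symm := ⟨fun i j h => ⟨h.1.symm, hsym _ _ h.2⟩⟩
      loopless := ⟨fun i h => h.1 rfl⟩ }
  have hcf : Γ.CliqueFree (K + 1) := by
    intro S hS
    have h1 := hK S (fun i hi j hj hij => (hS.isClique hi hj hij).2)
    rw [hS.card_eq] at h1
    omega
  have hT : 2 * K * Γ.edgeFinset.card ≤ (K - 1) * Fintype.card J ^ 2 := by
    obtain ⟨H, _, maxH⟩ := SimpleGraph.exists_isTuranMaximal (V := J) (r := K) hK0
    have h1 : Γ.edgeFinset.card ≤ H.edgeFinset.card := by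
      have := maxH.2 hcf
      convert this
    have h2 := ((SimpleGraph.isTuranMaximal_iff_nonempty_iso_turanGraph hK0).mp
      maxH).some.card_edgeFinset_eq
    have h3 := SimpleGraph.mul_card_edgeFinset_turanGraph_le (n := Fintype.card J) (r := K)
    rw [← h2] at h3
    calc 2 * K * Γ.edgeFinset.card ≤ 2 * K * H.edgeFinset.card :=
          Nat.mul_le_mul_left _ h1
      _ ≤ _ := by simpa using h3
  have hpairs : (univ.filter fun z : J × J => bad z.1 z.2).card = 2 * Γ.edgeFinset.card := by
    rw [← Γ.sum_degrees_eq_twice_card_edges, card_filter, Fintype.sum_prod_type]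
    refine sum_congr rfl fun i _ => ?_
    rw [← Γ.card_neighborFinset_eq_degree, ← card_filter]
    congr 1
    ext j
    simp only [mem_filter, mem_univ, true_and, SimpleGraph.mem_neighborFinset]
    constructor
    · intro h
      refine ⟨?_, h⟩
      rintro rfl
      exact hdiag _ h
    · intro h
      exact h.2
  have htot := card_filter_add_card_filter_not (s := (univ : Finset (J × J)))
      (fun z : J × J => bad z.1 z.2)
  rw [card_univ, Fintype.card_prod, ← sq] at htot
  have hN : Nat.card {z : J × J // ¬ bad z.1 z.2} =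
      (univ.filter fun z : J × J => ¬ bad z.1 z.2).card := by
    rw [Nat.card_eq_fintype_card, Fintype.card_subtype]
  rw [hN]
  obtain ⟨k, rfl⟩ : ∃ k, K = k + 1 := ⟨K - 1, by omega⟩
  simp only [Nat.add_sub_cancel] at hT
  nlinarith

end Pool.Agent.U659.BL
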