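import Mathlib

/-!
# Pairs with a nonnegative entry in a positive semidefinite matrix of small rank
-/

set_option autoImplicit false
set_option linter.unusedSectionVars false

namespace Pool.Agent.U659.BL

open Finset

section

variable {J K : Type} [Fintype J] [DecidableEq J] [Fintype K]

/-- In a positive semidefinite matrix of rank at most `D` there are at most `D + 1` indices with
pairwise negative entries. -/
theorem neg_clique (s : J → J → ℝ) (x t : J → K → ℝ)
    (hsym : ∀ i j, s i j = s j i)
    (hpsd : ∀ a : J → ℝ, 0 ≤ ∑ i, ∑ j, a i * a j * s i j)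
    (hf : ∀ i j, s i j = ∑ u, x i u * t j u)
    (S : Finset J) (hS : ∀ i ∈ S, ∀ j ∈ S, i ≠ j → s i j < 0) :
    S.card ≤ Fintype.card K + 1 := by
  classical
  by_contra hcon
  push Not at hcon
  obtain ⟨k, hk⟩ : S.Nonempty := card_pos.1 (by omega)
  have hcard : Fintype.card K < (S.erase k).card := by
    rw [card_erase_of_mem hk]
    omega
  have hdep : ¬ LinearIndependent ℝ (fun i : {i // i ∈ S.erase k} => x i.1) := by
    intro h
    have h1 := h.fintype_card_le_finrank
    rw [Module.finrank_fintype_fun_eq_card, Fintype.card_coe] at h1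
    omega
  obtain ⟨g, hg, ⟨i0, hi0⟩, hgi⟩ := Fintype.not_linearIndependent_iff.1 hdep
  set c : J → ℝ := fun i => if h : i ∈ S.erase k then g ⟨i, h⟩ else 0 with hcdef
  have hc0 : ∀ i, i ∉ S.erase k → c i = 0 := fun i hi => by rw [hcdef]; simp only [dif_neg hi]
  have hc1 : ∀ i (h : i ∈ S.erase k), c i = g ⟨i, h⟩ := fun i hi => by
    rw [hcdef]; simp only [dif_pos hi]
  have hx : ∀ u, ∑ i, c i * x i u = 0 := by
    intro u
    have h1 : ∑ i, c i * x i u = ∑ i ∈ S.erase k, c i * x i u := by
      symm
      apply sum_subset (subset_univ _)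
      intro i _ hi
      rw [hc0 i hi, zero_mul]
    rw [h1, ← sum_coe_sort]
    have h2 := congrFun hg u
    rw [Finset.sum_apply] at h2
    simp only [Pi.smul_apply, smul_eq_mul, Pi.zero_apply] at h2
    rw [← h2]
    exact sum_congr rfl fun i _ => by rw [hc1 i.1 i.2]
  have hrel : ∀ j, ∑ i, c i * s i j = 0 := by
    intro j
    have h1 : ∀ i, c i * s i j = ∑ u, c i * x i u * t j u := by
      intro i
      rw [hf, mul_sum]
      exact sum_congr rfl fun u _ => by ring
    rw [sum_congr rfl fun i _ => h1 i, sum_comm]
    apply sum_eq_zero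
    intro u _
    rw [← sum_mul, hx, zero_mul]
  have hneg : ∀ i j, c i ≠ 0 → c j ≠ 0 → i ≠ j → s i j < 0 := by
    intro i j hi hj hij
    have h1 : i ∈ S.erase k := by
      by_contra h
      exact hi (hc0 i h)
    have h2 : j ∈ S.erase k := by
      by_contra h
      exact hj (hc0 j h)
    exact hS i (mem_of_mem_erase h1) j (mem_of_mem_erase h2) hij
  have key : ∀ i j, c i < 0 → 0 < c j → False := by
    intro i1 j1 hi1 hj1
    set P : J → ℝ := fun i => max (c i) 0 with hP
    set M : J → ℝ := fun i => max (-c i) 0 with hM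
    have hPM : ∀ i, c i = P i - M i := by
      intro i
      simp only [hP, hM]
      rcases le_total (c i) 0 with h | h
      · rw [max_eq_right h, max_eq_left (by linarith)]; ring
      · rw [max_eq_left h, max_eq_right (by linarith)]; ring
    have hP0 : ∀ i, 0 ≤ P i := fun i => le_max_right _ _
    have hM0 : ∀ i, 0 ≤ M i := fun i => le_max_right _ _
    have h1 : ∑ i, ∑ j, P i * P j * s i j = ∑ i, ∑ j, M i * P j * s i j := by
      have h2 : ∑ j, P j * ∑ i, c i * s i j = 0 := by
        apply sum_eq_zero
        intro j _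
        rw [hrel, mul_zero]
      have h3 : ∑ j, P j * ∑ i, c i * s i j =
          ∑ i, ∑ j, P i * P j * s i j - ∑ i, ∑ j, M i * P j * s i j := by
        rw [← sum_sub_distrib, sum_congr rfl fun j _ => mul_sum _ _ _, sum_comm]
        refine sum_congr rfl fun i _ => ?_
        rw [← sum_sub_distrib]
        refine sum_congr rfl fun j _ => ?_
        rw [hPM i]
        ring
      linarith
    have h4 : ∀ i j, M i * P j * s i j ≤ 0 := by
      intro i j
      rcases (hM0 i).eq_or_lt with h5 | h5
      · rw [← h5]; simp
      rcases (hP0 j).eq_or_lt with h6 | h6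
      · rw [← h6]; simp
      have h7 : c i < 0 := by
        by_contra h
        push Not at h
        have : M i = 0 := max_eq_right (by linarith)
        linarith
      have h8 : 0 < c j := by
        by_contra h
        push Not at h
        have : P j = 0 := max_eq_right h
        linarith
      have h9 : i ≠ j := by
        rintro rfl
        linarith
      have := hneg i j h7.ne h8.ne' h9
      exact mul_nonpos_of_nonneg_of_nonpos (by positivity) this.le
    have h5 : M i1 * P j1 * s i1 j1 < 0 := by
      have h7 : 0 < M i1 := by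
        simp only [hM]
        exact lt_max_of_lt_left (by linarith)
      have h8 : 0 < P j1 := by
        simp only [hP]
        exact lt_max_of_lt_left hj1
      have h9 : i1 ≠ j1 := by
        rintro rfl
        linarith
      exact mul_neg_of_pos_of_neg (by positivity) (hneg i1 j1 hi1.ne hj1.ne' h9)
    have h6 : ∑ i, ∑ j, M i * P j * s i j < 0 := by
      apply sum_neg'
      · intro i _
        exact sum_nonpos fun j _ => h4 i j
      · refine ⟨i1, mem_univ _, sum_neg' (fun j _ => h4 i1 j) ⟨j1, mem_univ _, h5⟩⟩
    have h7 := hpsd P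
    linarith
  have hci : c i0 ≠ 0 := by
    rw [hc1 i0 hi0]
    exact hgi
  have hik : i0 ≠ k := ne_of_mem_erase hi0
  have hik' : s i0 k < 0 := hS i0 (mem_of_mem_erase hi0) k hk hik
  have hother : ∀ i, c i ≠ 0 → s i k < 0 := by
    intro i hi
    have h1 : i ∈ S.erase k := by
      by_contra h
      exact hi (hc0 i h)
    exact hS i (mem_of_mem_erase h1) k hk (ne_of_mem_erase h1)
  rcases lt_or_gt_of_ne hci with h | h
  · -- all coefficients are nonpositive
    have h1 : ∀ i, c i ≤ 0 := by
      intro i
      by_contra h2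
      push Not at h2
      exact key i0 i h h2
    have h2 : 0 < ∑ i, c i * s i k := by
      apply sum_pos'
      · intro i _
        rcases eq_or_ne (c i) 0 with h3 | h3
        · rw [h3, zero_mul]
        · exact mul_nonneg_of_nonpos_of_nonpos (h1 i) (hother i h3).le
      · exact ⟨i0, mem_univ _, mul_pos_of_neg_of_neg h hik'⟩
    rw [hrel] at h2
    exact lt_irrefl _ h2
  · have h1 : ∀ i, 0 ≤ c i := by
      intro i
      by_contra h2
      push Not at h2
      exact key i i0 h2 h
    have h2 : ∑ i, c i * s i k < 0 := by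
      apply sum_neg'
      · intro i _
        rcases eq_or_ne (c i) 0 with h3 | h3
        · rw [h3, zero_mul]
        · exact mul_nonpos_of_nonneg_of_nonpos (h1 i) (hother i h3).le
      · exact ⟨i0, mem_univ _, mul_neg_of_pos_of_neg h hik'⟩
    rw [hrel] at h2
    exact lt_irrefl _ h2

/-- A positive proportion of the entries is nonnegative. -/
theorem proportion (s : J → J → ℝ) (x t : J → K → ℝ)
    (hsym : ∀ i j, s i j = s j i)
    (hpsd : ∀ a : J → ℝ, 0 ≤ ∑ i, ∑ j, a i * a j * s i j)
    (hf : ∀ i j, s i j = ∑ u, x i u * t j u) :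
    Fintype.card J ^ 2 ≤ (Fintype.card K + 1) * Nat.card {z : J × J // 0 ≤ s z.1 z.2} := by
  classical
  let Γ : SimpleGraph J :=
    { Adj := fun i j => i ≠ j ∧ s i j < 0
      symm := ⟨fun i j h => ⟨h.1.symm, by rw [hsym]; exact h.2⟩⟩
      loopless := ⟨fun i h => h.1 rfl⟩ }
  set D := Fintype.card K with hD
  have hcf : Γ.CliqueFree (D + 1 + 1) := by
    intro S hS
    have h1 := neg_clique s x t hsym hpsd hf S (fun i hi j hj hij => (hS.isClique hi hj hij).2)
    rw [hS.card_eq] at h1
    omega
  -- Turan
  have hT : 2 * (D + 1) * Γ.edgeFinset.card ≤ D * Fintype.card J ^ 2 := by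
    obtain ⟨H, _, maxH⟩ := SimpleGraph.exists_isTuranMaximal (V := J) (r := D + 1) (Nat.succ_pos D)
    have h1 : Γ.edgeFinset.card ≤ H.edgeFinset.card := by
      have := maxH.2 hcf
      convert this
    have h2 := ((SimpleGraph.isTuranMaximal_iff_nonempty_iso_turanGraph (Nat.succ_pos D)).mp
      maxH).some.card_edgeFinset_eq
    have h3 := SimpleGraph.mul_card_edgeFinset_turanGraph_le (n := Fintype.card J) (r := D + 1)
    rw [← h2] at h3
    calc 2 * (D + 1) * Γ.edgeFinset.card ≤ 2 * (D + 1) * H.edgeFinset.card :=
          Nat.mul_le_mul_left _ h1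
      _ ≤ _ := by simpa using h3
  have hdiag : ∀ i, 0 ≤ s i i := by
    intro i
    have h := hpsd (fun j => if j = i then 1 else 0)
    simpa [ite_mul, mul_ite, sum_ite_eq', sum_ite_eq] using h
  have hpairs : (univ.filter fun z : J × J => s z.1 z.2 < 0).card = 2 * Γ.edgeFinset.card := by
    rw [← Γ.sum_degrees_eq_twice_card_edges, card_filter, Fintype.sum_prod_type]
    refine sum_congr rfl fun i _ => ?_
    rw [← Γ.card_neighborFinset_eq_degree, ← card_filter]
    congr 1
    ext j
    simp only [mem_filter, mem_univ, true_and, SimpleGraph.mem_neighborFinset]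
    constructor
    · intro h
      refine ⟨?_, h⟩
      rintro rfl
      linarith [hdiag i]
    · intro h
      exact h.2
  have htot : (univ.filter fun z : J × J => 0 ≤ s z.1 z.2).card +
      (univ.filter fun z : J × J => s z.1 z.2 < 0).card = Fintype.card J ^ 2 := by
    have h1 := card_filter_add_card_filter_not (s := (univ : Finset (J × J)))
      (fun z : J × J => 0 ≤ s z.1 z.2)
    rw [card_univ, Fintype.card_prod, ← sq] at h1
    rw [← h1]
    congr 2
    ext z
    simp
  have hN : Nat.card {z : J × J // 0 ≤ s z.1 z.2} =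
      (univ.filter fun z : J × J => 0 ≤ s z.1 z.2).card := by
    rw [Nat.card_eq_fintype_card, Fintype.card_subtype]
  rw [hN]
  nlinarith

end

end Pool.Agent.U659.BL
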