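import Pool.Agent.H207R2.BL.Mirror
import Pool.Agent.U659.BL.Neg

/-!
# The chromatic polynomials of glued halves as a matrix of small rank
-/

set_option autoImplicit false
set_option linter.unusedSectionVars false

namespace Pool.Agent.U659.BL

open Finset Polynomial Pool.Agent.H207R2.BL

/-- the noncrossing equivalence relations on `n` points -/
abbrev NC (n : ℕ) : Type := {ρ : Setoid (Fin n) // NonCrossing ρ}

instance (n : ℕ) : Finite (NC n) := by
  have : Finite (Setoid (Fin n)) :=
    Finite.of_injective (fun ρ : Setoid (Fin n) => fun a b => ρ a b) (by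
      intro ρ σ h
      apply Setoid.ext
      intro a b
      exact iff_of_eq (congrFun (congrFun h a) b))
  infer_instance

noncomputable instance (n : ℕ) : Fintype (NC n) := Fintype.ofFinite _

theorem exists_vec {n : ℕ} {J : Type} (V : J → Type) [∀ i, Finite (V i)]
    (N : ∀ i, SimpleGraph (V i ⊕ Fin n)) (hN : ∀ i, Crossless (N i)) (q : ℝ) :
    ∃ x : J → NC n → ℝ, ∀ i j (p : ℝ[X]), IsChrom (glue (N i) (N j)) p →
      p.eval q = ∑ ρ : NC n, x i ρ *
        ∑ σ : NC n, x j σ * q ^ (Nat.card (Quotient (ρ.1 ⊔ σ.1))) := by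
  classical
  have : ∀ i, Fintype (V i) := fun i => Fintype.ofFinite _
  choose m hm using fun (i : J) (A : Finset (Sym2 (V i ⊕ Fin n))) => ext_count (comp A)
  have hinner : ∀ i k (c : Fin n → Fin k), Pool.Agent.H207R2.BL.inner (N i) k c =
      ∑ A ∈ (N i).edgeFinset.powerset, (-1 : ℝ) ^ A.card * (k : ℝ) ^ (m i A) *
        ind (Setoid.comap Sum.inr (comp A)) c := by
    intro i k c
    unfold Pool.Agent.H207R2.BL.inner
    simp_rw [pr_expand]
    rw [Finset.sum_comm]
    refine Finset.sum_congr rfl (fun A _ => ?_)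
    rw [← Finset.mul_sum, hm i A k c]
    ring
  let τ : ∀ i, Finset (Sym2 (V i ⊕ Fin n)) → Setoid (Fin n) :=
    fun i A => Setoid.comap Sum.inr (comp A)
  have hτ : ∀ i, ∀ A ∈ (N i).edgeFinset.powerset, NonCrossing (τ i A) := by
    intro i A hA
    refine comap_nc (N i) (hN i) A ?_
    have := Finset.mem_powerset.1 hA
    intro e he
    have h1 := this (Finset.mem_coe.1 he)
    simpa using h1
  refine ⟨fun i ρ => ∑ A ∈ (N i).edgeFinset.powerset,
    if τ i A = ρ.1 then (-1 : ℝ) ^ A.card * q ^ (m i A) else 0, ?_⟩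
  intro i j p hp
  let P : ℝ[X] :=
    ∑ A ∈ (N i).edgeFinset.powerset, ∑ B ∈ (N j).edgeFinset.powerset,
      C ((-1 : ℝ) ^ A.card * (-1) ^ B.card) *
        X ^ (m i A + m j B + Nat.card (Quotient (Setoid.comap Sum.inr (comp A) ⊔
          Setoid.comap Sum.inr (comp B))))
  have hP : p = P := by
    apply Polynomial.eq_of_infinite_eval_eq
    apply Set.infinite_of_injective_forall_mem (f := fun k : ℕ => (k : ℝ)) Nat.cast_injective
    intro k
    change p.eval (k : ℝ) = P.eval (k : ℝ)
    rw [hp k, card_glue]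
    simp_rw [hinner, Finset.sum_mul_sum]
    rw [Finset.sum_comm]
    simp only [P, Polynomial.eval_finsetSum, Polynomial.eval_mul, Polynomial.eval_C,
      Polynomial.eval_pow, Polynomial.eval_X]
    refine Finset.sum_congr rfl (fun A _ => ?_)
    rw [Finset.sum_comm]
    refine Finset.sum_congr rfl (fun B _ => ?_)
    rw [pow_add, pow_add, ← sum_ind, Finset.mul_sum, Finset.mul_sum]
    refine Finset.sum_congr rfl (fun c _ => ?_)
    ring
  have hreg : ∀ (i : J) (F : Setoid (Fin n) → ℝ),
      ∑ ρ : NC n, (∑ A ∈ (N i).edgeFinset.powerset,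
        if τ i A = ρ.1 then (-1 : ℝ) ^ A.card * q ^ (m i A) else 0) * F ρ.1 =
      ∑ A ∈ (N i).edgeFinset.powerset, (-1 : ℝ) ^ A.card * q ^ (m i A) * F (τ i A) := by
    intro i F
    simp_rw [sum_mul]
    rw [sum_comm]
    refine sum_congr rfl fun A hA => ?_
    rw [Finset.sum_eq_single (⟨τ i A, hτ i A hA⟩ : NC n)]
    · rw [if_pos rfl]
    · intro ρ _ hρ
      rw [if_neg, zero_mul]
      intro h
      exact hρ (Subtype.ext h.symm)
    · simp
  rw [hP]
  rw [hreg i (fun ρ => ∑ σ : NC n, (∑ B ∈ (N j).edgeFinset.powerset,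
    if τ j B = σ.1 then (-1 : ℝ) ^ B.card * q ^ (m j B) else 0) *
      q ^ (Nat.card (Quotient (ρ ⊔ σ.1))))]
  simp only [P, Polynomial.eval_finsetSum, Polynomial.eval_mul, Polynomial.eval_C,
      Polynomial.eval_pow, Polynomial.eval_X]
  refine sum_congr rfl fun A hA => ?_
  rw [hreg j (fun σ => q ^ (Nat.card (Quotient (τ i A ⊔ σ)))), mul_sum]
  refine sum_congr rfl fun B _ => ?_
  rw [pow_add, pow_add]
  ring

/-- The inequality with an arbitrary linear combination of halves. -/
theorem schur {n : ℕ} {J : Type} [Fintype J] (V : J → Type) [∀ i, Finite (V i)]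
    (N : ∀ i, SimpleGraph (V i ⊕ Fin n)) (hN : ∀ i, Crossless (N i))
    (p : J → J → ℝ[X]) (hp : ∀ i j, IsChrom (glue (N i) (N j)) (p i j))
    (r : J → ℝ[X]) (hr : ∀ i, IsChrom (N i) (r i)) (q : ℝ) (hq : 4 ≤ q) :
    (∀ a : J → ℝ, (∑ i, a i * (r i).eval q) ^ 2 ≤
      q ^ n * ∑ i, ∑ j, a i * a j * (p i j).eval q) ∧
    ∃ x : J → NC n → ℝ, ∃ t : J → NC n → ℝ, ∃ t0 : NC n → ℝ,
      (∀ i j, (p i j).eval q = ∑ ρ, x i ρ * t j ρ) ∧
      ∀ i, (r i).eval q = ∑ ρ, x i ρ * t0 ρ := by
  classical
  have hr1 : ∀ i, IsChrom (glue (N i) (emptyHalf n)) (r i) := fun i =>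
    (hr i).of_iso (glueEmpty (N i))
  have hr2 : ∀ i, IsChrom (glue (emptyHalf n) (N i)) (r i) := by
    intro i k
    rw [hr1 i k]
    have : Fintype (V i) := Fintype.ofFinite (V i)
    rw [card_glue, card_glue]
    exact Finset.sum_congr rfl (fun c _ => mul_comm _ _)
  have hq0 : 0 < q := by linarith
  let VV : Option J → Type := fun b =>
    match b with
    | some i => V i
    | none => Empty
  have hfin : ∀ b, Finite (VV b) := by
    intro b
    cases b
    · exact inferInstanceAs (Finite Empty)
    · rename_i i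
      exact inferInstanceAs (Finite (V i))
  let NN : ∀ b, SimpleGraph (VV b ⊕ Fin n) := fun b =>
    match b with
    | some i => N i
    | none => emptyHalf n
  have hNN : ∀ b, Crossless (NN b) := by
    intro b
    cases b
    · exact emptyHalf_crossless n
    · rename_i i
      exact hN i
  let P : Option J → Option J → ℝ[X] := fun a b =>
    match a, b with
    | some i, some j => p i j
    | some i, none => r i
    | none, some j => r j
    | none, none => X ^ n
  have hP : ∀ a b, IsChrom (glue (NN a) (NN b)) (P a b) := by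
    intro a b
    cases a <;> cases b
    · exact chrom_empty n
    · exact hr2 _
    · exact hr1 _
    · exact hp _ _
  constructor
  · intro a
    apply quad_ineq (pow_pos hq0 n)
    intro x y
    have := psd VV NN hNN P hP q hq (fun b =>
      match b with
      | some i => x * a i
      | none => y)
    simp only [Fintype.sum_option, P, eval_pow, eval_X] at this
    have e1 : ∑ i, ∑ j, x * a i * (x * a j) * (p i j).eval q =
        x * x * ∑ i, ∑ j, a i * a j * (p i j).eval q := by
      rw [mul_sum]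
      refine sum_congr rfl fun i _ => ?_
      rw [mul_sum]
      exact sum_congr rfl fun j _ => by ring
    have e2 : ∑ i, y * (x * a i) * (r i).eval q = x * y * ∑ i, a i * (r i).eval q := by
      rw [mul_sum]
      exact sum_congr rfl fun j _ => by ring
    have e3 : ∑ i, (x * a i * y * (r i).eval q +
        ∑ j, x * a i * (x * a j) * (p i j).eval q) =
        x * y * ∑ i, a i * (r i).eval q +
        x * x * ∑ i, ∑ j, a i * a j * (p i j).eval q := by
      rw [sum_add_distrib, e1]
      congr 1
      rw [mul_sum]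
      exact sum_congr rfl fun j _ => by ring
    rw [e2, e3] at this
    linarith
  · obtain ⟨x, hx⟩ := exists_vec VV NN hNN q
    refine ⟨fun i => x (some i), fun j ρ => ∑ σ : NC n, x (some j) σ *
      q ^ (Nat.card (Quotient (ρ.1 ⊔ σ.1))), fun ρ => ∑ σ : NC n, x none σ *
      q ^ (Nat.card (Quotient (ρ.1 ⊔ σ.1))), ?_, ?_⟩
    · intro i j
      exact hx (some i) (some j) (p i j) (hP (some i) (some j))
    · intro i
      exact hx (some i) none (r i) (hP (some i) none)

end Pool.Agent.U659.BL
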